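import Pool.Agent.Helper70.TW.Goals2

/-!
# Project TW (MP_c7dfba_nt), packet QSYS
-/

set_option autoImplicit false

namespace Pool.Agent.Helper94.TW

open MvPolynomial Pool.Agent.Helper70.TW

universe u

section Lin

variable {K : Type u} [Field K]

/-- Families on which the forms vanish can be extended. -/
theorem ext_step {V : Type u} [AddCommGroup V] [Module K V] [FiniteDimensional K V] {r : ℕ}
    (B : Fin r → V →ₗ[K] V →ₗ[K] K)
    (IH : ∀ U : Submodule K V, r * (r + 1) < Module.finrank K U → ∃ x ∈ U, x ≠ 0 ∧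
      ∀ j, B j x x = 0)
    (t : ℕ) (e : Fin t → V) (he : LinearIndependent K e)
    (hB : ∀ j a b, B j (e a) (e b) + B j (e b) (e a) = 0)
    (hn : r * (r + 1) + (r + 1) * t < Module.finrank K V) :
    ∃ e' : Fin (t + 1) → V, LinearIndependent K e' ∧
      ∀ j a b, B j (e' a) (e' b) + B j (e' b) (e' a) = 0 := by
  let L : V →ₗ[K] (Fin r × Fin t → K) := LinearMap.pi fun p => (B p.1).flip (e p.2) + B p.1 (e p.2)
  have hL : ∀ x p, L x p = B p.1 x (e p.2) + B p.1 (e p.2) x := by
    intro x p; simp [L]
  obtain ⟨C, hC⟩ := Submodule.exists_isCompl (Submodule.span K (Set.range e))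
  have hW : Module.finrank K (Submodule.span K (Set.range e)) = t := by
    rw [finrank_span_eq_card he, Fintype.card_fin]
  have hCd : t + Module.finrank K C = Module.finrank K V := by
    rw [← Submodule.finrank_add_eq_of_isCompl hC, hW]
  have hker : Module.finrank K V ≤ Module.finrank K (LinearMap.ker L) + r * t := by
    have h1 := LinearMap.finrank_range_add_finrank_ker L
    have h2 : Module.finrank K (LinearMap.range L) ≤ r * t := by
      refine (Submodule.finrank_le _).trans ?_
      rw [Module.finrank_fintype_fun_eq_card, Fintype.card_prod, Fintype.card_fin, Fintype.card_fin]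
    omega
  have hinf := Submodule.finrank_sup_add_finrank_inf_eq (LinearMap.ker L) C
  have hsup : Module.finrank K ((LinearMap.ker L ⊔ C : Submodule K V)) ≤ Module.finrank K V :=
    Submodule.finrank_le _
  have hdim : r * (r + 1) < Module.finrank K ((LinearMap.ker L ⊓ C : Submodule K V)) := by
    have e1 : (r + 1) * t = r * t + t := by ring
    omega
  obtain ⟨x, hxU, hx0, hxB⟩ := IH _ hdim
  have hxL : ∀ j a, B j x (e a) + B j (e a) x = 0 := by
    intro j a
    have h1 : L x = 0 := hxU.1
    have h2 := congrFun h1 (j, a)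
    rw [hL] at h2
    exact h2
  have hxW : x ∉ Submodule.span K (Set.range e) := by
    intro hmem
    have h1 := (Submodule.disjoint_def.mp hC.disjoint) x hmem hxU.2
    exact hx0 h1
  refine ⟨Fin.cons x e, linearIndependent_finCons.2 ⟨he, hxW⟩, ?_⟩
  intro j a b
  refine Fin.cases ?_ (fun a' => ?_) a
  · refine Fin.cases ?_ (fun b' => ?_) b
    · rw [Fin.cons_zero, hxB j, add_zero]
    · rw [Fin.cons_zero, Fin.cons_succ]; exact hxL j b'
  · refine Fin.cases ?_ (fun b' => ?_) b
    · rw [Fin.cons_zero, Fin.cons_succ, add_comm]; exact hxL j a'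
    · rw [Fin.cons_succ, Fin.cons_succ]; exact hB j a' b'

/-- Claim S(r) for bilinear forms. -/
theorem sys (hter : ∀ q : Fin 3 → Fin 3 → K, ∃ x : Fin 3 → K, x ≠ 0 ∧
      ∑ i, ∑ j, q i j * x i * x j = 0) [CharZero K] (r : ℕ) :
    ∀ (V : Type u) [AddCommGroup V] [Module K V] [FiniteDimensional K V]
      (B : Fin r → V →ₗ[K] V →ₗ[K] K), r * (r + 1) < Module.finrank K V →
      ∃ x : V, x ≠ 0 ∧ ∀ j, B j x x = 0 := by
  induction r with
  | zero =>
    intro V _ _ _ B hn
    have : Nontrivial V := Module.nontrivial_of_finrank_pos (R := K) (lt_of_le_of_lt (Nat.zero_le _) hn)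
    obtain ⟨x, hx⟩ := exists_ne (0 : V)
    exact ⟨x, hx, fun j => j.elim0⟩
  | succ r ih =>
    intro V _ _ _ B hn
    set B' : Fin r → V →ₗ[K] V →ₗ[K] K := fun j => B j.castSucc with hB'
    have IH : ∀ U : Submodule K V, r * (r + 1) < Module.finrank K U → ∃ x ∈ U, x ≠ 0 ∧
        ∀ j, B' j x x = 0 := by
      intro U hU
      obtain ⟨x, hx0, hx⟩ := ih U (fun j => (B' j).compl₁₂ U.subtype U.subtype) hU
      refine ⟨x, x.2, ?_, fun j => ?_⟩
      · intro h; exact hx0 (Subtype.ext h)
      · have := hx j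
        simpa using this
    have hn2 : r * (r + 1) + (r + 1) * 2 < Module.finrank K V := by
      have : (r + 1) * (r + 1 + 1) = r * (r + 1) + (r + 1) * 2 := by ring
      omega
    have h1 : ∃ e : Fin 1 → V, LinearIndependent K e ∧
        ∀ j a b, B' j (e a) (e b) + B' j (e b) (e a) = 0 := by
      refine ext_step B' IH 0 (fun i => i.elim0) (linearIndependent_empty_type) (fun _ a => a.elim0) ?_
      omega
    obtain ⟨e1, he1, hb1⟩ := h1
    obtain ⟨e2, he2, hb2⟩ := ext_step B' IH 1 e1 he1 hb1 (by omega)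
    obtain ⟨e3, he3, hb3⟩ := ext_step B' IH 2 e2 he2 hb2 hn2
    obtain ⟨c, hc0, hc⟩ := hter (fun i j => B (Fin.last r) (e3 i) (e3 j))
    refine ⟨∑ i, c i • e3 i, ?_, ?_⟩
    · intro h
      apply hc0
      have := Fintype.linearIndependent_iff.mp he3 c h
      funext i; exact this i
    · have hexp : ∀ j, B j (∑ i, c i • e3 i) (∑ i, c i • e3 i) =
          ∑ i, ∑ k, B j (e3 i) (e3 k) * c i * c k := by
        intro j
        simp only [map_sum, map_smul, LinearMap.sum_apply, LinearMap.smul_apply, smul_eq_mul]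
        simp_rw [Finset.mul_sum]
        rw [Finset.sum_comm]
        refine Finset.sum_congr rfl fun i _ => Finset.sum_congr rfl fun k _ => ?_
        ring
      intro j
      rw [hexp]
      refine Fin.lastCases ?_ (fun j' => ?_) j
      · exact hc
      · have h2 : (2 : K) * ∑ i, ∑ k, B j'.castSucc (e3 i) (e3 k) * c i * c k = 0 := by
          have h3 : ∑ i, ∑ k, B j'.castSucc (e3 i) (e3 k) * c i * c k =
              ∑ i, ∑ k, B j'.castSucc (e3 k) (e3 i) * c i * c k := by
            rw [Finset.sum_comm]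
            refine Finset.sum_congr rfl fun i _ => Finset.sum_congr rfl fun k _ => ?_
            ring
          have h4 : (2 : K) * ∑ i, ∑ k, B j'.castSucc (e3 i) (e3 k) * c i * c k =
              ∑ i, ∑ k, (B j'.castSucc (e3 i) (e3 k) + B j'.castSucc (e3 k) (e3 i)) * c i * c k := by
            have h5 : ∑ i, ∑ k, (B j'.castSucc (e3 i) (e3 k) + B j'.castSucc (e3 k) (e3 i)) * c i * c k
                = ∑ i, ∑ k, B j'.castSucc (e3 i) (e3 k) * c i * c k +
                  ∑ i, ∑ k, B j'.castSucc (e3 k) (e3 i) * c i * c k := by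
              rw [← Finset.sum_add_distrib]
              refine Finset.sum_congr rfl fun i _ => ?_
              rw [← Finset.sum_add_distrib]
              refine Finset.sum_congr rfl fun k _ => ?_
              ring
            rw [h5, ← h3]; ring
          rw [h4]
          refine Finset.sum_eq_zero fun i _ => Finset.sum_eq_zero fun k _ => ?_
          have := hb3 j' i k
          rw [hB'] at this
          rw [this]; ring
        exact (mul_eq_zero.mp h2).resolve_left two_ne_zero

/-- Splitting a variable off an exponent. -/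
theorem split_deg {n : ℕ} (d : Fin n →₀ ℕ) (k : ℕ) (h : d.degree = k + 1) :
    ∃ (a : Fin n) (d' : Fin n →₀ ℕ), d = d' + Finsupp.single a 1 ∧ d'.degree = k := by
  have hne : d ≠ 0 := by
    rintro rfl
    simp at h
  obtain ⟨a, ha⟩ := Finsupp.support_nonempty_iff.mpr hne
  have ha' : 1 ≤ d a := Nat.one_le_iff_ne_zero.mpr (Finsupp.mem_support_iff.mp ha)
  have hle : Finsupp.single a 1 ≤ d := Finsupp.single_le_iff.mpr ha'
  refine ⟨a, d - Finsupp.single a 1, (tsub_add_cancel_of_le hle).symm, ?_⟩
  have h2 : d.degree = (d - Finsupp.single a 1).degree + 1 := by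
    conv_lhs => rw [← tsub_add_cancel_of_le hle]
    rw [map_add, Finsupp.degree_single]
  omega

/-- Quadratic polynomials as bilinear forms. -/
theorem quad_form {n : ℕ} (f : MvPolynomial (Fin n) K) (hf : f.IsHomogeneous 2) :
    ∃ B : (Fin n → K) →ₗ[K] (Fin n → K) →ₗ[K] K, ∀ x, B x x = eval x f := by
  have hmon : ∀ d ∈ f.support, ∃ B : (Fin n → K) →ₗ[K] (Fin n → K) →ₗ[K] K,
      ∀ x, B x x = eval x (monomial d (coeff d f)) := by
    intro d hd
    have hdeg : d.degree = 2 := by
      have := hf (mem_support_iff.mp hd)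
      rw [Finsupp.degree_eq_weight_one]; exact this
    obtain ⟨a, d', h1, h2⟩ := split_deg d 1 hdeg
    obtain ⟨b, d'', h3, h4⟩ := split_deg d' 0 h2
    have h5 : d'' = 0 := by
      rwa [Finsupp.degree_eq_zero_iff] at h4
    refine ⟨coeff d f • (LinearMap.mul K K).compl₁₂ (LinearMap.proj a) (LinearMap.proj b), ?_⟩
    intro x
    rw [h1, h3, h5, monomial_add_single, monomial_add_single]
    simp only [map_mul, eval_X, pow_one, LinearMap.smul_apply, LinearMap.compl₁₂_apply,
      LinearMap.proj_apply, LinearMap.mul_apply', smul_eq_mul, eval_monomial, Finsupp.prod_zero_index]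
    ring
  choose! B hB using hmon
  refine ⟨∑ d ∈ f.support, B d, ?_⟩
  intro x
  rw [LinearMap.sum_apply, LinearMap.sum_apply]
  conv_rhs => rw [f.as_sum]
  rw [map_sum]
  exact Finset.sum_congr rfl fun d hd => hB d hd x

end Lin

/-- **QSYS**. -/
theorem qsys : QSYS.{u} := by
  intro K _ _ hter r e f he hf
  have hform : ∀ j, ∃ B : (Fin (r * (r + 1) + 1) → K) →ₗ[K] (Fin (r * (r + 1) + 1) → K) →ₗ[K] K,
      ∀ x, B x x = 0 → eval x (f j) = 0 := by
    intro j
    rcases Nat.lt_or_ge (e j) 2 with h | h
    · have h1 : e j = 1 := by have := (he j).1; omega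
      have h2 : (f j ^ 2).IsHomogeneous 2 := by
        have := (hf j).pow 2
        rwa [h1] at this
      obtain ⟨B, hB⟩ := quad_form _ h2
      refine ⟨B, fun x hx => ?_⟩
      rw [hB, map_pow] at hx
      exact pow_eq_zero_iff (two_ne_zero) |>.mp hx
    · have h1 : e j = 2 := le_antisymm (he j).2 h
      obtain ⟨B, hB⟩ := quad_form (f j) (h1 ▸ hf j)
      exact ⟨B, fun x hx => by rw [← hB]; exact hx⟩
  choose B hB using hform
  obtain ⟨x, hx0, hx⟩ := sys hter r (Fin (r * (r + 1) + 1) → K) B (by
    rw [Module.finrank_fintype_fun_eq_card, Fintype.card_fin]; omega)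
  exact ⟨x, hx0, fun j => hB j x (hx j)⟩

end Pool.Agent.Helper94.TW
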