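import Pool.Agent.Helper76.TW.Goals
import Pool.Agent.Helper88.TU.Size
import Pool.Agent.Helper88.CG.VP
import Pool.Agent.Helper94.TU.RC

/-!
# MP_74f661_nt, project T74, packet RC2: the number of rough points under the weight
-/

set_option autoImplicit false

open Finset Filter Topology

open scoped Classical

namespace Pool.Agent.Helper94.TW

open Pool.Agent.Helper76.TW
open Pool.Agent.Helper88.TU (Su size)
open Pool.Agent.Helper88.PP (pr Rg om Sf SS uu vv ee LA VV QQ cost)
open Pool.Agent.Helper88.RR (gg ab TB nz DB VM)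
open Pool.Agent.Helper88.GM (NI XI)
open Pool.Agent.Helper88.CG (qE mE)
open Pool.Agent.Helper85.RR (ab_nonneg mem_TB card_TB prod_TB gg_nonneg gg_zero nz_le)
open Pool.Agent.Helper94.TU (gg_succ_le LA_ne_one)

/-- the labels of `r` on the bigger set `P'` -/
noncomputable def z0 {P P' : Finset ℕ} (r : P → ℕ) (i : P') : ℕ :=
  if h : (i : ℕ) ∈ P then r ⟨i, h⟩ else 0

/-- the roughness conditions at the points of `G` added -/
noncomputable def ex {P P' : Finset ℕ} (G : Finset P') (r : P → ℕ) (i : P') : ℕ :=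
  if z0 r i = 0 ∧ i ∈ G then 1 else z0 r i

theorem prod_z0 {P P' : Finset ℕ} (hPP : P ⊆ P') {M : Type} [CommMonoid M] (f : ℕ → ℕ → M)
    (hf : ∀ i, f 0 i = 1) (r : P → ℕ) :
    ∏ i : P', f (z0 r i) (i : ℕ) = ∏ i : P, f (r i) (i : ℕ) := by
  have h1 : ∏ i : P', f (z0 r i) (i : ℕ) =
      ∏ i ∈ P', f (if h : i ∈ P then r ⟨i, h⟩ else 0) i :=
    Finset.prod_coe_sort P' (fun i => f (if h : i ∈ P then r ⟨i, h⟩ else 0) i)
  have h2 : ∏ i : P, f (r i) (i : ℕ) = ∏ i ∈ P, f (if h : i ∈ P then r ⟨i, h⟩ else 0) i := by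
    rw [← Finset.prod_coe_sort P (fun i => f (if h : i ∈ P then r ⟨i, h⟩ else 0) i)]
    refine Finset.prod_congr rfl fun i _ => ?_
    rw [dif_pos i.2]
  rw [h1, h2]
  symm
  refine Finset.prod_subset hPP fun i _ hi => ?_
  rw [dif_neg hi, hf]

theorem nz_z0 {P P' : Finset ℕ} (hPP : P ⊆ P') (r : P → ℕ) :
    nz (fun i : P' => z0 r i) = nz r := by
  unfold nz
  have h1 : ∀ (Q : Finset ℕ) (s : Q → ℕ), (univ.filter (fun i => s i ≠ 0)).card =
      Multiplicative.toAdd (∏ i : Q, Multiplicative.ofAdd (if s i = 0 then 0 else 1)) := by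
    intro Q s
    rw [Finset.card_filter, toAdd_prod]
    refine Finset.sum_congr rfl fun i _ => ?_
    rw [toAdd_ofAdd]
    by_cases h : s i = 0 <;> simp [h]
  rw [h1, h1]
  congr 1
  exact prod_z0 hPP (fun a _ => Multiplicative.ofAdd (if a = 0 then 0 else 1)) (by simp) r

theorem ex_zero {P P' : Finset ℕ} {G : Finset P'} {r : P → ℕ} {i : P'} (h : z0 r i = 0)
    (hi : i ∈ G) : ex G r i = 1 := by
  unfold ex
  rw [if_pos ⟨h, hi⟩]

theorem ex_ne {P P' : Finset ℕ} {G : Finset P'} {r : P → ℕ} {i : P'} (h : z0 r i ≠ 0) :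
    ex G r i = z0 r i := by
  unfold ex
  rw [if_neg (fun h1 => h h1.1)]

theorem ex_not {P P' : Finset ℕ} {G : Finset P'} {r : P → ℕ} {i : P'} (h : i ∉ G) :
    ex G r i = z0 r i := by
  unfold ex
  rw [if_neg (fun h1 => h h1.2)]

theorem z0_ne_one {P P' : Finset ℕ} {r : P → ℕ} (h : ∀ i, r i ≠ 1) (i : P') : z0 r i ≠ 1 := by
  unfold z0
  split_ifs with h1
  · exact h _
  · exact zero_ne_one

/-- the coefficient of the label function `s` -/
noncomputable def co {P' : Finset ℕ} (m q z : ℕ) (G : Finset P') (s : P' → ℕ) : ℝ :=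
  ∏ i, (if i ∈ G then (if s i = 1 then 1 else - ab m q z (s i)) else
    (if s i = 0 then 1 else - ab m q z (s i)))

theorem co_ex {P P' : Finset ℕ} (hPP : P ⊆ P') (m q z : ℕ) (G : Finset P') (r : P → ℕ)
    (h1 : ∀ i, r i ≠ 1) :
    co m q z G (ex G r) = ∏ i : P, (if r i = 0 then 1 else - ab m q z (r i)) := by
  rw [← prod_z0 hPP (fun a _ => if a = 0 then (1 : ℝ) else - ab m q z a) (by simp) r]
  unfold co
  refine Finset.prod_congr rfl fun i _ => ?_
  by_cases hi : i ∈ G
  · rw [if_pos hi]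
    by_cases h : z0 r i = 0
    · rw [if_pos (ex_zero h hi), if_pos h]
    · rw [ex_ne h, if_neg (z0_ne_one h1 i), if_neg h]
  · rw [if_neg hi, ex_not hi]

theorem vR_ex {P P' : Finset ℕ} (hPP : P ⊆ P') (R : ℕ → Prop) (n : ℕ) (G : Finset P')
    (r : P → ℕ) :
    ∏ i : P', vR R (ex G r i) (n + (i : ℕ)) =
      (∏ i : P', (if i ∈ G then (if R (n + (i : ℕ)) then (1 : ℝ) else 0) else 1)) *
        ∏ i : P, vR R (r i) (n + (i : ℕ)) := by
  rw [← prod_z0 hPP (fun a i => vR R a (n + i)) (by simp [vR]) r, ← Finset.prod_mul_distrib]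
  refine Finset.prod_congr rfl fun i _ => ?_
  by_cases hi : i ∈ G
  · rw [if_pos hi]
    by_cases h : z0 r i = 0
    · rw [ex_zero h hi, h]
      simp [vR, uu]
    · rw [ex_ne h]
      unfold vR
      rw [if_neg h]
      split_ifs <;> simp
  · rw [if_neg hi, ex_not hi, one_mul]

theorem tot_ex {P P' : Finset ℕ} (hPP : P ⊆ P') (G : Finset P') (r : P → ℕ) :
    ∏ i : P', (if ex G r i = 0 then 1 else (Nat.totient (ex G r i) : ℝ)) =
      ∏ i : P, (if r i = 0 then 1 else (Nat.totient (r i) : ℝ)) := by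
  rw [← prod_z0 hPP (fun a _ => if a = 0 then (1 : ℝ) else (Nat.totient a : ℝ)) (by simp) r]
  refine Finset.prod_congr rfl fun i _ => ?_
  by_cases hi : i ∈ G
  · by_cases h : z0 r i = 0
    · rw [ex_zero h hi, h]
      simp
    · rw [ex_ne h]
  · rw [ex_not hi]

theorem max_ex {P P' : Finset ℕ} (hPP : P ⊆ P') (G : Finset P') (r : P → ℕ) :
    ∏ i : P', max 1 (ex G r i) = ∏ i : P, max 1 (r i) := by
  rw [← prod_z0 hPP (fun a _ => max 1 a) (by simp) r]
  refine Finset.prod_congr rfl fun i _ => ?_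
  by_cases hi : i ∈ G
  · by_cases h : z0 r i = 0
    · rw [ex_zero h hi, h]
      simp
    · rw [ex_ne h]
  · rw [ex_not hi]

theorem nz_ex {P P' : Finset ℕ} (hPP : P ⊆ P') (G : Finset P') (r : P → ℕ) :
    nz (ex G r) = nz r + (G.filter (fun i => z0 r i = 0)).card := by
  rw [← nz_z0 hPP r]
  unfold nz
  rw [← Finset.card_union_of_disjoint]
  · congr 1
    ext i
    simp only [Finset.mem_filter, Finset.mem_univ, true_and, Finset.mem_union]
    by_cases h : z0 r i = 0
    · by_cases hi : i ∈ G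
      · rw [ex_zero h hi]
        simp [h, hi]
      · rw [ex_not hi]
        simp [h, hi]
    · rw [ex_ne h]
      simp [h]
  · rw [Finset.disjoint_left]
    intro i h1 h2
    exact (Finset.mem_filter.1 h1).2 (Finset.mem_filter.1 h2).2

theorem ex_injOn {P P' : Finset ℕ} (hPP : P ⊆ P') (G : Finset P') {S : Finset (P → ℕ)}
    (hS : ∀ r ∈ S, ∀ i, r i ≠ 1) : Set.InjOn (ex G) (S : Set (P → ℕ)) := by
  intro r hr s hs h
  funext i
  have h1 : ex G r ⟨i, hPP i.2⟩ = ex G s ⟨i, hPP i.2⟩ := congrFun h _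
  have h2 : ∀ t : P → ℕ, z0 t (⟨i, hPP i.2⟩ : P') = t i := by
    intro t
    unfold z0
    rw [dif_pos i.2]
  by_cases hi : (⟨i, hPP i.2⟩ : P') ∈ G
  · by_cases a1 : r i = 0
    · rw [ex_zero (by rw [h2, a1]) hi] at h1
      by_cases a2 : s i = 0
      · rw [a1, a2]
      · rw [ex_ne (by rwa [h2]), h2] at h1
        exact absurd h1.symm (hS s hs i)
    · rw [ex_ne (by rwa [h2]), h2] at h1
      by_cases a2 : s i = 0
      · rw [ex_zero (by rw [h2, a2]) hi] at h1
        exact absurd h1 (hS r hr i)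
      · rw [ex_ne (by rwa [h2]), h2] at h1
        exact h1
  · rw [ex_not hi, ex_not hi, h2, h2] at h1
    exact h1

theorem gg_le {y z k : ℕ} (ho : 0 ≤ om y z) :
    ∀ l : ℕ, 2 * (k + l) ≤ y → gg y z (2 * (k + l)) ≤ (om y z ^ 2) ^ l * gg y z (2 * k) := by
  intro l
  induction l with
  | zero =>
    intro _
    simp
  | succ l ih =>
    intro h
    have h1 : 2 * (k + (l + 1)) = 2 * (k + l) + 1 + 1 := by ring
    rw [h1]
    refine (gg_succ_le (by omega)).trans ?_
    have h2 := gg_succ_le (y := y) (z := z) (k := 2 * (k + l)) (by omega)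
    calc om y z * gg y z (2 * (k + l) + 1) ≤ om y z * (om y z * gg y z (2 * (k + l))) :=
          mul_le_mul_of_nonneg_left h2 ho
      _ = om y z ^ 2 * gg y z (2 * (k + l)) := by ring
      _ ≤ om y z ^ 2 * ((om y z ^ 2) ^ l * gg y z (2 * k)) :=
          mul_le_mul_of_nonneg_left (ih (by omega)) (by positivity)
      _ = (om y z ^ 2) ^ (l + 1) * gg y z (2 * k) := by ring

theorem W2_eq (m q M z y : ℕ) (P : Finset ℕ) (n : ℕ) : W2 m q M z y P n =
    ∑ r ∈ TB m q M z P, (∏ i : P, (if r i = 0 then 1 else - ab m q z (r i))) *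
      ∏ i : P, vR (R2 y z) (r i) (n + (i : ℕ)) := by
  unfold W2
  refine Finset.sum_congr rfl fun r _ => ?_
  rw [Finset.prod_mul_distrib]

theorem wb2_eq (m q y z : ℕ) {P : Finset ℕ} (r : P → ℕ) : wb2 m q y z r =
    (∏ i : P, (if r i = 0 then 1 else - ab m q z (r i))) ^ 2 *
      (gg y z (2 * nz r) * ∏ i : P, (if r i = 0 then 1 else (Nat.totient (r i) : ℝ))) := by
  unfold wb2
  rw [mul_left_comm, ← Finset.prod_pow, ← Finset.prod_mul_distrib]
  congr 1
  refine Finset.prod_congr rfl fun i _ => ?_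
  split_ifs <;> ring

theorem wb2_nonneg {m q y z : ℕ} {P : Finset ℕ} (r : P → ℕ) (hr : 2 * nz r ≤ y) :
    0 ≤ wb2 m q y z r := by
  unfold wb2
  refine mul_nonneg (gg_nonneg hr) (Finset.prod_nonneg fun i _ => ?_)
  split_ifs
  · exact zero_le_one
  · positivity

theorem one_le_D2 (m q M z y : ℕ) (P : Finset ℕ)
    (h : ∀ r ∈ TB m q M z P, 2 * nz r ≤ y) : 1 ≤ D2 m q M z y P := by
  unfold D2
  have h0 : (fun _ : P => 0) ∈ TB m q M z P := by
    unfold TB
    rw [Finset.mem_filter, Fintype.mem_piFinset]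
    exact ⟨fun i => Finset.mem_insert_self _ _, by simp [cost]⟩
  have h1 : nz (fun _ : P => 0) = 0 := by
    unfold nz
    simp
  have h2 : wb2 m q y z (fun _ : P => 0) = 1 := by
    unfold wb2
    rw [h1, mul_zero, gg_zero]
    simp
  have h3 := Finset.single_le_sum (f := fun r : P → ℕ => wb2 m q y z r) (s := TB m q M z P)
    (fun r hr => wb2_nonneg r (h r hr)) h0
  exact h2.ge.trans h3

/-- Packet `RC2`. -/
theorem rc2 (h1 : StmtTG2) : StmtRC2 := by
  obtain ⟨c, hc, E1, hTG⟩ := h1
  obtain ⟨E2, hsz⟩ := size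
  obtain ⟨c', hc', E3, hVP⟩ := Pool.Agent.Helper88.CG.vp
  refine ⟨2, by norm_num, max (max E1 E2) (max E3 2), ?_⟩
  intro E z x y hE hS Q b hb P hPo
  have hE1 : E1 ≤ E := ((le_max_left _ _).trans (le_max_left _ _)).trans hE
  have hE2 : E2 ≤ E := ((le_max_right _ _).trans (le_max_left _ _)).trans hE
  have hE3 : E3 ≤ E := ((le_max_left _ _).trans (le_max_right _ _)).trans hE
  obtain ⟨a1, a2, a3, a4, a5, a6, a7, a8, a9, a10, a11, a12, a13, a14⟩ := hsz E z x y hE2 hS
  obtain ⟨v1, v2, v3, v4, v5, v6⟩ := hVP E hE3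
  obtain ⟨v7, -⟩ := v6 z (by omega)
  have hz2 : 2 ≤ z := by omega
  have hE1' : 2 ≤ E := ((le_max_right _ _).trans (le_max_right _ _)).trans hE
  have hq1 : 1 ≤ qE E := Nat.one_le_two_pow
  have hWt : ∀ n, Wt2 E z y P n = W2 (mE E) (qE E) (E / 16) z y P n := fun n => rfl
  have hDt : Dt2 E z y P = D2 (mE E) (qE E) (E / 16) z y P := rfl
  simp only [hWt, hDt]
  set m := mE E with hm
  set q := qE E with hq
  set M := E / 16 with hM
  have hqm : q * m ≤ M := by
    refine le_trans ?_ v2
    apply Nat.mul_le_mul_right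
    exact Nat.le_self_pow (by norm_num) q
  have hK : (M / m + 2) ^ 3 ≤ E := by
    refine le_trans ?_ v4
    calc (M / m + 2) ^ 3 ≤ (M / m + 2) ^ 6 :=
          Nat.pow_le_pow_right (Nat.succ_pos _) (by norm_num)
      _ ≤ (2 * (M / m + 2)) ^ 6 := Nat.pow_le_pow_left (Nat.le_mul_of_pos_left _ two_pos) 6
  have hXI : 0 ≤ XQ x Q := by
    have h2 : XQ x Q = XI x (32 * x) Q := rfl
    rw [h2]
    unfold XI
    apply div_nonneg _ (Nat.cast_nonneg _)
    push_cast
    have : (0 : ℝ) ≤ x := Nat.cast_nonneg x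
    linarith
  have hom0 : 0 ≤ om y z := by
    unfold om
    refine Finset.prod_nonneg fun p hp => ?_
    have h1 : y < p := (Finset.mem_Ioc.1 (Finset.mem_filter.1 hp).1).1
    have h2 : (0 : ℝ) < p := by exact_mod_cast (Nat.zero_le y).trans_lt h1
    have h3 : 1 / (p : ℝ) ≤ 1 := by
      rw [div_le_one h2]
      exact_mod_cast (by omega : 1 ≤ p)
    linarith
  have hom1 : om y z ≤ 1 := by
    unfold om
    refine Finset.prod_le_one (fun p hp => ?_) fun p hp => ?_
    · have h1 : y < p := (Finset.mem_Ioc.1 (Finset.mem_filter.1 hp).1).1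
      have h2 : (0 : ℝ) < p := by exact_mod_cast (Nat.zero_le y).trans_lt h1
      have h3 : 1 / (p : ℝ) ≤ 1 := by
        rw [div_le_one h2]
        exact_mod_cast (by omega : 1 ≤ p)
      linarith
    · have h2 : (0 : ℝ) ≤ 1 / (p : ℝ) := by positivity
      linarith
  have hom2 : 0 ≤ om y z ^ 2 := by positivity
  have hom3 : om y z ^ 2 ≤ 1 := pow_le_one₀ hom0 hom1
  have hex : Real.exp (-(c * E)) ≤ 1 := by
    apply Real.exp_le_one_iff.2
    have : 0 ≤ c * E := by positivity
    linarith
  have hEE : 2 * E ≤ y := by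
    have : 2 * E ≤ E ^ 2 := by nlinarith
    omega
  have hnzE : ∀ r ∈ TB m q M z P, nz r + 2 ≤ E := by
    intro r hr
    have e6 : nz r ≤ M / m := card_TB v1 hz2 hr
    have e7 : M / m + 2 ≤ (M / m + 2) ^ 3 := Nat.le_self_pow (by norm_num) _
    omega
  have hD1 : 1 ≤ D2 m q M z y P := one_le_D2 m q M z y P fun r hr => by
    have := hnzE r hr
    omega
  have hne1 : ∀ r ∈ TB m q M z P, ∀ j, r j ≠ 1 := by
    intro r hr j
    rcases (mem_TB hr).1 j with h | h
    · omega
    · exact LA_ne_one v1 hz2 h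
  -- the bound for a set of at most two points
  have key : ∀ (P' : Finset ℕ), P ⊆ P' → Sep y P' → (P'.card : ℝ) * om y z ^ 2 ≤ (E : ℝ) ^ 2 →
      ∀ G : Finset P', G.card ≤ 2 → ∑ n ∈ NQ x Q b,
      (∏ i : P', (if i ∈ G then (if R2 y z (n + (i : ℕ)) then (1 : ℝ) else 0) else 1)) *
        W2 m q M z y P n ^ 2 ≤
      XQ x Q * (∑ r ∈ TB m q M z P,
        (om y z ^ 2) ^ (G.filter (fun i => z0 r i = 0)).card * wb2 m q y z r) +
        (om y z ^ 2) ^ G.card * XQ x Q := by
    intro P' hPP hSep hPo2 G hG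
    have hres := hTG E z x y hE1 hS Q b hb m q (M / m + 2) (E / 16) v1 hqm v7
      hK (by omega) le_rfl P' hSep hPo2 ((TB m q M z P).image (ex G)) (co m q z G) ∅ G
      (by simp) hG (by simp) ?_ ?_ ?_ ?_ ?_ ?_
    · have e1 : ∀ n, ∑ r ∈ (TB m q M z P).image (ex G),
          co m q z G r * ∏ i, vR (R2 y z) (r i) (n + (i : ℕ)) =
          (∏ i : P', (if i ∈ G then (if R2 y z (n + (i : ℕ)) then (1 : ℝ) else 0) else 1)) *
            W2 m q M z y P n := by
        intro n
        rw [Finset.sum_image (ex_injOn hPP G hne1), W2_eq, Finset.mul_sum]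
        refine Finset.sum_congr rfl fun r hr => ?_
        rw [co_ex hPP m q z G r (hne1 r hr), vR_ex hPP]
        ring
      have e2 : ∑ r ∈ (TB m q M z P).image (ex G), co m q z G r ^ 2 *
          (gg y z (2 * nz r) * ∏ i, (if r i = 0 then 1 else (Nat.totient (r i) : ℝ))) ≤
          ∑ r ∈ TB m q M z P,
            (om y z ^ 2) ^ (G.filter (fun i => z0 r i = 0)).card * wb2 m q y z r := by
        rw [Finset.sum_image (ex_injOn hPP G hne1)]
        refine Finset.sum_le_sum fun r hr => ?_
        rw [co_ex hPP m q z G r (hne1 r hr), tot_ex hPP, nz_ex hPP, wb2_eq]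
        have e4 : (0 : ℝ) ≤ ∏ i : P, (if r i = 0 then 1 else (Nat.totient (r i) : ℝ)) := by
          refine Finset.prod_nonneg fun i _ => ?_
          split_ifs <;> positivity
        have e5 := gg_le (y := y) (z := z) (k := nz r) hom0
          (G.filter (fun i => z0 r i = 0)).card (by
            have b1 := hnzE r hr
            have b2 : (G.filter (fun i => z0 r i = 0)).card ≤ G.card := Finset.card_filter_le _ _
            omega)
        calc (∏ i : P, (if r i = 0 then 1 else - ab m q z (r i))) ^ 2 *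
            (gg y z (2 * (nz r + (G.filter (fun i => z0 r i = 0)).card)) *
              ∏ i : P, (if r i = 0 then 1 else (Nat.totient (r i) : ℝ)))
            ≤ (∏ i : P, (if r i = 0 then 1 else - ab m q z (r i))) ^ 2 *
            ((om y z ^ 2) ^ (G.filter (fun i => z0 r i = 0)).card * gg y z (2 * nz r) *
              ∏ i : P, (if r i = 0 then 1 else (Nat.totient (r i) : ℝ))) :=
              mul_le_mul_of_nonneg_left (mul_le_mul_of_nonneg_right e5 e4) (sq_nonneg _)
          _ = _ := by ring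
      have e10 : ∀ n, ((∏ i : P', (if i ∈ G then (if R2 y z (n + (i : ℕ)) then (1 : ℝ) else 0)
          else 1)) * W2 m q M z y P n) ^ 2 =
          (∏ i : P', (if i ∈ G then (if R2 y z (n + (i : ℕ)) then (1 : ℝ) else 0) else 1)) *
            W2 m q M z y P n ^ 2 := by
        intro n
        rw [mul_pow, ← Finset.prod_pow]
        congr 1
        refine Finset.prod_congr rfl fun i _ => ?_
        split_ifs <;> ring
      simp only [e1, e10] at hres
      have e11 := (abs_le.1 hres).2
      have e12 := mul_le_mul_of_nonneg_left e2 hXI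
      have e13 : Real.exp (-(c * E)) * (om y z ^ 2) ^ ((∅ : Finset P').card + G.card) *
          XQ x Q ≤ (om y z ^ 2) ^ G.card * XQ x Q := by
        rw [Finset.card_empty, zero_add]
        apply mul_le_mul_of_nonneg_right _ hXI
        exact mul_le_of_le_one_left (pow_nonneg hom2 _) hex
      linarith
    · intro r hr i _ hiG
      obtain ⟨s, hs, rfl⟩ := Finset.mem_image.1 hr
      rw [ex_not hiG]
      unfold z0
      split_ifs with h
      · exact (mem_TB hs).1 _
      · exact Or.inl rfl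
    · intro r _ i hi
      exact absurd hi (Finset.notMem_empty i)
    · intro r hr i hi
      obtain ⟨s, hs, rfl⟩ := Finset.mem_image.1 hr
      by_cases h0 : z0 s i = 0
      · left
        exact ex_zero h0 hi
      · right
        rw [ex_ne h0]
        unfold z0 at h0 ⊢
        split_ifs with h
        · rw [dif_pos h] at h0
          exact ((mem_TB hs).1 _).resolve_left h0
        · rw [dif_neg h] at h0
          exact absurd rfl h0
    · intro r hr
      obtain ⟨s, hs, rfl⟩ := Finset.mem_image.1 hr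
      rw [nz_ex hPP]
      have h1 : nz s ≤ M / m := card_TB v1 hz2 hs
      have h2 : (G.filter (fun i => z0 s i = 0)).card ≤ G.card := Finset.card_filter_le _ _
      omega
    · intro r hr
      obtain ⟨s, hs, rfl⟩ := Finset.mem_image.1 hr
      rw [max_ex hPP]
      exact (prod_TB hz2 hs).trans (Nat.pow_le_pow_right (by omega) (by omega))
    · intro r hr
      unfold co
      rw [Finset.abs_prod]
      refine Finset.prod_le_prod (fun i _ => abs_nonneg _) fun i _ => ?_
      rw [if_neg (Finset.notMem_empty i)]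
      by_cases hi : i ∈ G
      · rw [if_pos hi, if_pos hi]
        split_ifs
        · rw [abs_one]
        · rw [abs_neg, abs_of_nonneg (ab_nonneg _ _ _ _)]
      · rw [if_neg hi, if_neg hi]
        split_ifs
        · rw [abs_one]
        · rw [abs_neg, abs_of_nonneg (ab_nonneg _ _ _ _)]
  -- the bound for one point of `P`, with a set `J` of at most one point outside `P`
  have key2 : ∀ (P' : Finset ℕ) (hPP : P ⊆ P'), Sep y P' →
      (P'.card : ℝ) * om y z ^ 2 ≤ (E : ℝ) ^ 2 →
      ∀ J : Finset P', J.card ≤ 1 → (∀ g ∈ J, (g : ℕ) ∉ P) → ∀ i : P, ∑ n ∈ NQ x Q b,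
      (∏ k : P', (if k ∈ J then (if R2 y z (n + (k : ℕ)) then (1 : ℝ) else 0) else 1)) *
        ((if R2 y z (n + (i : ℕ)) then 1 else 0) * W2 m q M z y P n ^ 2) ≤
      (om y z ^ 2) ^ J.card * (XQ x Q * (∑ r ∈ TB m q M z P,
        (om y z ^ 2 + (if r i = 0 then 0 else 1)) * wb2 m q y z r) + om y z ^ 2 * XQ x Q) := by
    intro P' hPP hSep hPo2 J hJ hJP i
    set i' : P' := ⟨i, hPP i.2⟩ with hi'
    have hiJ : i' ∉ J := fun h => hJP i' h i.2
    have hcard : (insert i' J).card = J.card + 1 := Finset.card_insert_of_notMem hiJ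
    have hk := key P' hPP hSep hPo2 (insert i' J) (by omega)
    have e1 : ∀ n, ∏ k : P', (if k ∈ insert i' J then
        (if R2 y z (n + (k : ℕ)) then (1 : ℝ) else 0) else 1) =
        (∏ k : P', (if k ∈ J then (if R2 y z (n + (k : ℕ)) then (1 : ℝ) else 0) else 1)) *
          (if R2 y z (n + (i : ℕ)) then 1 else 0) := by
      intro n
      rw [← Finset.mul_prod_erase univ _ (Finset.mem_univ i'),
        ← Finset.mul_prod_erase univ (fun k : P' => (if k ∈ J then
          (if R2 y z (n + (k : ℕ)) then (1 : ℝ) else 0) else 1)) (Finset.mem_univ i'),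
        if_pos (Finset.mem_insert_self _ _), if_neg hiJ, one_mul, mul_comm]
      congr 1
      refine Finset.prod_congr rfl fun k hk => ?_
      have hk' : k ≠ i' := Finset.ne_of_mem_erase hk
      simp [Finset.mem_insert, hk']
    have e2 : ∀ r ∈ TB m q M z P,
        (om y z ^ 2) ^ ((insert i' J).filter (fun i => z0 r i = 0)).card * wb2 m q y z r ≤
        (om y z ^ 2) ^ J.card * ((om y z ^ 2 + (if r i = 0 then 0 else 1)) * wb2 m q y z r) := by
      intro r hr
      rw [← mul_assoc]
      apply mul_le_mul_of_nonneg_right _ (wb2_nonneg r (by have := hnzE r hr; omega))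
      have h2 : J.filter (fun i => z0 r i = 0) = J := by
        refine Finset.filter_true_of_mem fun k hk => ?_
        unfold z0
        rw [dif_neg (hJP k hk)]
      have h3 : z0 r i' = r i := by
        unfold z0
        rw [dif_pos i.2]
      rw [Finset.filter_insert, h2, h3]
      by_cases h4 : r i = 0
      · rw [if_pos h4, if_pos h4, hcard, pow_succ, add_zero]
      · rw [if_neg h4, if_neg h4]
        have h5 := pow_nonneg hom2 J.card
        nlinarith
    have e3 := Finset.sum_le_sum e2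
    rw [← Finset.mul_sum] at e3
    have e4 := mul_le_mul_of_nonneg_left e3 hXI
    have e5 : ∑ n ∈ NQ x Q b,
      (∏ k : P', (if k ∈ J then (if R2 y z (n + (k : ℕ)) then (1 : ℝ) else 0) else 1)) *
        ((if R2 y z (n + (i : ℕ)) then 1 else 0) * W2 m q M z y P n ^ 2) =
      ∑ n ∈ NQ x Q b, (∏ k : P', (if k ∈ insert i' J then
        (if R2 y z (n + (k : ℕ)) then (1 : ℝ) else 0) else 1)) * W2 m q M z y P n ^ 2 := by
      refine Finset.sum_congr rfl fun n _ => ?_
      rw [e1]
      ring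
    rw [e5]
    refine hk.trans ?_
    rw [hcard, pow_succ]
    calc XQ x Q * (∑ r ∈ TB m q M z P,
        (om y z ^ 2) ^ ((insert i' J).filter (fun i => z0 r i = 0)).card * wb2 m q y z r) +
        (om y z ^ 2) ^ J.card * om y z ^ 2 * XQ x Q
        ≤ XQ x Q * ((om y z ^ 2) ^ J.card * ∑ r ∈ TB m q M z P,
        (om y z ^ 2 + (if r i = 0 then 0 else 1)) * wb2 m q y z r) +
        (om y z ^ 2) ^ J.card * om y z ^ 2 * XQ x Q := by linarith
      _ = _ := by ring
  -- the sum over the points
  have hcount : ∀ n, ((P.filter (fun h => R2 y z (n + h))).card : ℝ) =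
      ∑ j : P, (if R2 y z (n + (j : ℕ)) then (1 : ℝ) else 0) := by
    intro n
    rw [Finset.card_filter, Nat.cast_sum,
      ← Finset.sum_coe_sort P (fun i => (((if R2 y z (n + i) then 1 else 0) : ℕ) : ℝ))]
    refine Finset.sum_congr rfl fun j _ => ?_
    split_ifs <;> simp
  have hnz : ∀ r : P → ℕ, ∑ j : P, (om y z ^ 2 + (if r j = 0 then (0 : ℝ) else 1)) =
      P.card * om y z ^ 2 + nz r := by
    intro r
    rw [Finset.sum_add_distrib, Finset.sum_const, nsmul_eq_mul, Finset.card_univ,
      Fintype.card_coe]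
    congr 1
    unfold nz
    rw [Finset.card_filter, Nat.cast_sum]
    refine Finset.sum_congr rfl fun j _ => ?_
    by_cases h0 : r j = 0
    · rw [if_pos h0, if_neg (fun h1 => h1 h0), Nat.cast_zero]
    · rw [if_neg h0, if_pos h0, Nat.cast_one]
  have main : ∀ (P' : Finset ℕ) (hPP : P ⊆ P'), Sep y P' →
      (P'.card : ℝ) * om y z ^ 2 ≤ (E : ℝ) ^ 2 →
      ∀ J : Finset P', J.card ≤ 1 → (∀ g ∈ J, (g : ℕ) ∉ P) → ∑ n ∈ NQ x Q b,
      (∏ k : P', (if k ∈ J then (if R2 y z (n + (k : ℕ)) then (1 : ℝ) else 0) else 1)) *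
        (W2 m q M z y P n ^ 2 * ((P.filter (fun h => R2 y z (n + h))).card : ℝ)) ≤
      (om y z ^ 2) ^ J.card * (2 * (XQ x Q * D2 m q M z y P) * (P.card * om y z ^ 2 + E)) := by
    intro P' hPP hSep hPo2 J hJ hJP
    have hsum : ∑ n ∈ NQ x Q b,
        (∏ k : P', (if k ∈ J then (if R2 y z (n + (k : ℕ)) then (1 : ℝ) else 0) else 1)) *
        (W2 m q M z y P n ^ 2 * ((P.filter (fun h => R2 y z (n + h))).card : ℝ)) =
        ∑ i : P, ∑ n ∈ NQ x Q b,
        (∏ k : P', (if k ∈ J then (if R2 y z (n + (k : ℕ)) then (1 : ℝ) else 0) else 1)) *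
        ((if R2 y z (n + (i : ℕ)) then 1 else 0) * W2 m q M z y P n ^ 2) := by
      rw [Finset.sum_comm]
      refine Finset.sum_congr rfl fun n _ => ?_
      rw [hcount n, ← Finset.mul_sum, ← Finset.sum_mul]
      ring
    rw [hsum]
    calc ∑ i : P, ∑ n ∈ NQ x Q b,
        (∏ k : P', (if k ∈ J then (if R2 y z (n + (k : ℕ)) then (1 : ℝ) else 0) else 1)) *
        ((if R2 y z (n + (i : ℕ)) then 1 else 0) * W2 m q M z y P n ^ 2)
        ≤ ∑ i : P, (om y z ^ 2) ^ J.card * (XQ x Q * (∑ r ∈ TB m q M z P,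
          (om y z ^ 2 + (if r i = 0 then 0 else 1)) * wb2 m q y z r) + om y z ^ 2 * XQ x Q) :=
          Finset.sum_le_sum fun i _ => key2 P' hPP hSep hPo2 J hJ hJP i
      _ = (om y z ^ 2) ^ J.card * (XQ x Q * (∑ r ∈ TB m q M z P,
          (P.card * om y z ^ 2 + nz r) * wb2 m q y z r) + P.card * om y z ^ 2 * XQ x Q) := by
          rw [← Finset.mul_sum, Finset.sum_add_distrib, ← Finset.mul_sum, Finset.sum_comm,
            Finset.sum_const, nsmul_eq_mul, Finset.card_univ, Fintype.card_coe]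
          congr 2
          · congr 1
            refine Finset.sum_congr rfl fun r _ => ?_
            rw [← Finset.sum_mul, hnz r]
          · ring
      _ ≤ _ := by
          apply mul_le_mul_of_nonneg_left _ (pow_nonneg hom2 _)
          have h1 : ∑ r ∈ TB m q M z P, (P.card * om y z ^ 2 + nz r) * wb2 m q y z r ≤
              (P.card * om y z ^ 2 + E) * D2 m q M z y P := by
            unfold D2
            rw [Finset.mul_sum]
            refine Finset.sum_le_sum fun r hr => ?_
            have h4 := hnzE r hr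
            apply mul_le_mul_of_nonneg_right _ (wb2_nonneg r (by omega))
            have h5 : (nz r : ℝ) ≤ E := by exact_mod_cast (by omega : nz r ≤ E)
            linarith
          have h2 := mul_le_mul_of_nonneg_left h1 hXI
          have h3 : 0 ≤ (P.card : ℝ) * om y z ^ 2 := by positivity
          have h4 : (0 : ℝ) ≤ E := Nat.cast_nonneg E
          have h5 : P.card * om y z ^ 2 * XQ x Q ≤
              XQ x Q * ((P.card * om y z ^ 2 + E) * D2 m q M z y P) := by
            calc P.card * om y z ^ 2 * XQ x Q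
                = XQ x Q * (P.card * om y z ^ 2 * 1) := by ring
              _ ≤ XQ x Q * ((P.card * om y z ^ 2 + E) * D2 m q M z y P) := by
                  apply mul_le_mul_of_nonneg_left _ hXI
                  exact mul_le_mul (by linarith) hD1 zero_le_one (by linarith)
          linarith
  constructor
  · intro hSep
    have h2 : (P.card : ℝ) * om y z ^ 2 ≤ (E : ℝ) ^ 2 := by
      have : 0 ≤ (E : ℝ) ^ 2 := by positivity
      linarith
    have h3 := main P subset_rfl hSep h2 ∅ (by simp) (by simp)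
    simpa using h3
  · intro j hj hSep
    have h2 : ((insert j P).card : ℝ) * om y z ^ 2 ≤ (E : ℝ) ^ 2 := by
      rw [Finset.card_insert_of_notMem hj]
      push_cast
      have h3 : (2 : ℝ) ≤ E := by exact_mod_cast hE1'
      nlinarith
    have h3 := main (insert j P) (Finset.subset_insert _ _) hSep h2
      {⟨j, Finset.mem_insert_self _ _⟩} (by simp) (by
        intro g hg
        rw [Finset.mem_singleton] at hg
        subst hg
        exact hj)
    rw [Finset.card_singleton, pow_one] at h3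
    have h4 : ∑ n ∈ (NQ x Q b).filter (fun n => R2 y z (n + j)),
        W2 m q M z y P n ^ 2 * ((P.filter (fun h => R2 y z (n + h))).card : ℝ) =
        ∑ n ∈ NQ x Q b, (∏ k : (insert j P : Finset ℕ), (if k ∈ ({⟨j, Finset.mem_insert_self _ _⟩} :
          Finset (insert j P : Finset ℕ)) then (if R2 y z (n + (k : ℕ)) then (1 : ℝ) else 0)
          else 1)) *
        (W2 m q M z y P n ^ 2 * ((P.filter (fun h => R2 y z (n + h))).card : ℝ)) := by
      rw [Finset.sum_filter]
      refine Finset.sum_congr rfl fun n _ => ?_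
      have h5 : (∏ k : (insert j P : Finset ℕ), (if k ∈ ({⟨j, Finset.mem_insert_self _ _⟩} :
          Finset (insert j P : Finset ℕ)) then (if R2 y z (n + (k : ℕ)) then (1 : ℝ) else 0)
          else 1)) = if R2 y z (n + j) then 1 else 0 := by
        rw [Finset.prod_eq_single (⟨j, Finset.mem_insert_self _ _⟩ : (insert j P : Finset ℕ))]
        · simp
        · intro k _ hk
          rw [if_neg]
          rwa [Finset.mem_singleton]
        · intro h
          exact absurd (Finset.mem_univ _) h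
      rw [h5]
      split_ifs <;> simp
    rw [h4]
    refine h3.trans (le_of_eq ?_)
    ring

end Pool.Agent.Helper94.TW
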